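import Pool.Agent.Lib.MP_3f0e40_al.Pres

/-!
# A family of commutator relators with overlapping letters (MP_3f0e40_al)

`Z` is an alphabet, `y` (written `none`) a further letter, `s` a word in `Z`, `f` a word in
`Z` and one more letter `u`. With `r = f(Z, y s y⁻¹) y` the group `⟨Z ∪ {y}; [r, s]⟩` is
residually finite if and only if `⟨Z ∪ {y}; r⟩` is.
-/

set_option autoImplicit false

open scoped commutatorElement

namespace Pool.Agent.Results.MP_3f0e40_al.CentralLetter

/-- The word `s` in the letters `Z`, read in the letters `Z ∪ {y}` (`y` is `none`). -/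
def inner {Z : Type} (s : FreeGroup Z) : FreeGroup (Option Z) := FreeGroup.map some s

/-- The word `f(Z, y s y⁻¹) y`; `f` is a word in `Z` and a letter `u` (written `none`), for which
`y s y⁻¹` is substituted. -/
def outer {Z : Type} (s : FreeGroup Z) (f : FreeGroup (Option Z)) : FreeGroup (Option Z) :=
  FreeGroup.lift (fun o : Option Z => Option.elim o
    (FreeGroup.of none * inner s * (FreeGroup.of none)⁻¹) fun z => FreeGroup.of (some z)) f *
    FreeGroup.of none

open Pool.Agent.MP3f0e40

/-- evaluation of `outer` -/
theorem lift_outer {Z G : Type} [Group G] (s : FreeGroup Z) (f : FreeGroup (Option Z))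
    (a : Z → G) (b : G) :
    FreeGroup.lift (fun o : Option Z => Option.elim o b a) (outer s f) =
      FreeGroup.lift (fun o : Option Z => Option.elim o (b * FreeGroup.lift a s * b⁻¹) a) f * b := by
  have hin : FreeGroup.lift (fun o : Option Z => Option.elim o b a) (inner s) =
      FreeGroup.lift a s := by
    have : (FreeGroup.lift (fun o : Option Z => Option.elim o b a)).comp (FreeGroup.map some) =
        FreeGroup.lift a := by
      ext1 x
      rw [MonoidHom.comp_apply, FreeGroup.map.of, FreeGroup.lift_apply_of, FreeGroup.lift_apply_of]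
      rfl
    exact DFunLike.congr_fun this s
  rw [outer, map_mul, FreeGroup.lift_apply_of]
  congr 1
  have : (FreeGroup.lift (fun o : Option Z => Option.elim o b a)).comp
      (FreeGroup.lift (fun o : Option Z => Option.elim o
        (FreeGroup.of none * inner s * (FreeGroup.of none)⁻¹) fun z => FreeGroup.of (some z))) =
      FreeGroup.lift (fun o : Option Z => Option.elim o (b * FreeGroup.lift a s * b⁻¹) a) := by
    ext1 o
    rw [MonoidHom.comp_apply, FreeGroup.lift_apply_of, FreeGroup.lift_apply_of]
    cases o with
    | some z =>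
      show FreeGroup.lift _ (FreeGroup.of (some z)) = _
      rw [FreeGroup.lift_apply_of]
      rfl
    | none =>
      show FreeGroup.lift _ (FreeGroup.of none * inner s * (FreeGroup.of none)⁻¹) = _
      rw [map_mul, map_mul, map_inv, FreeGroup.lift_apply_of, hin]
      rfl
  exact DFunLike.congr_fun this f

theorem lift_inner {Z G : Type} [Group G] (s : FreeGroup Z) (a : Z → G) (b : G) :
    FreeGroup.lift (fun o : Option Z => Option.elim o b a) (inner s) = FreeGroup.lift a s := by
  have : (FreeGroup.lift (fun o : Option Z => Option.elim o b a)).comp (FreeGroup.map some) =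
      FreeGroup.lift a := by
    ext1 x
    rw [MonoidHom.comp_apply, FreeGroup.map.of, FreeGroup.lift_apply_of, FreeGroup.lift_apply_of]
    rfl
  exact DFunLike.congr_fun this s

/-- the canonical form of a homomorphism out of a free group on `Option Z` -/
theorem hom_eq {Z G : Type} [Group G] (g : FreeGroup (Option Z) →* G) :
    g = FreeGroup.lift (fun o : Option Z => Option.elim o (g (FreeGroup.of none))
      fun z => g (FreeGroup.of (some z))) := by
  ext1 o
  rw [FreeGroup.lift_apply_of]
  cases o <;> rfl

section

variable {Z : Type} (s : FreeGroup Z) (f : FreeGroup (Option Z))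

/-- the group `G` -/
abbrev GG : Type := PresentedGroup ({outer s f} : Set (FreeGroup (Option Z)))

/-- the group `I` -/
abbrev II : Type := PresentedGroup ({⁅outer s f, inner s⁆} : Set (FreeGroup (Option Z)))

/-- image in `I` -/
abbrev mkI : FreeGroup (Option Z) →* II s f := PresentedGroup.mk _

/-- image in `G` -/
abbrev mkG : FreeGroup (Option Z) →* GG s f := PresentedGroup.mk _

theorem comm_I : mkI s f (outer s f) * mkI s f (inner s) =
    mkI s f (inner s) * mkI s f (outer s f) := by
  have h := mk_rel (⁅outer s f, inner s⁆ : FreeGroup (Option Z))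
  rwa [map_commutatorElement, commutatorElement_eq_one_iff_mul_comm] at h

theorem mkI_inner : mkI s f (inner s) = FreeGroup.lift (fun z => mkI s f (FreeGroup.of (some z))) s := by
  conv_lhs => rw [hom_eq (mkI s f)]
  exact lift_inner s _ _

theorem mkG_inner : mkG s f (inner s) = FreeGroup.lift (fun z => mkG s f (FreeGroup.of (some z))) s := by
  conv_lhs => rw [hom_eq (mkG s f)]
  exact lift_inner s _ _

theorem mkI_outer : mkI s f (outer s f) = FreeGroup.lift (fun o : Option Z => Option.elim o
    (mkI s f (FreeGroup.of none) * mkI s f (inner s) * (mkI s f (FreeGroup.of none))⁻¹)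
    fun z => mkI s f (FreeGroup.of (some z))) f * mkI s f (FreeGroup.of none) := by
  conv_lhs => rw [hom_eq (mkI s f)]
  rw [lift_outer, mkI_inner]

/-- the embedding of `G` in `I` on letters -/
noncomputable def emb (o : Option Z) : II s f :=
  Option.elim o (mkI s f (FreeGroup.of none) * (mkI s f (outer s f))⁻¹)
    fun z => mkI s f (FreeGroup.of (some z))

theorem emb_rel : FreeGroup.lift (emb s f) (outer s f) = 1 := by
  have h1 : emb s f = fun o : Option Z => Option.elim o
    (mkI s f (FreeGroup.of none) * (mkI s f (outer s f))⁻¹)
    fun z => mkI s f (FreeGroup.of (some z)) := rfl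
  rw [h1, lift_outer, ← mkI_inner]
  have h2 : mkI s f (FreeGroup.of none) * (mkI s f (outer s f))⁻¹ * mkI s f (inner s) *
      (mkI s f (FreeGroup.of none) * (mkI s f (outer s f))⁻¹)⁻¹ =
      mkI s f (FreeGroup.of none) * mkI s f (inner s) * (mkI s f (FreeGroup.of none))⁻¹ := by
    have h3 : (mkI s f (outer s f))⁻¹ * mkI s f (inner s) * mkI s f (outer s f) =
        mkI s f (inner s) := by
      rw [mul_assoc, ← comm_I, inv_mul_cancel_left]
    calc _ = mkI s f (FreeGroup.of none) * ((mkI s f (outer s f))⁻¹ * mkI s f (inner s) *
          mkI s f (outer s f)) * (mkI s f (FreeGroup.of none))⁻¹ := by group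
      _ = _ := by rw [h3]
  rw [h2, ← mul_assoc, ← mkI_outer, mul_inv_cancel]

/-- the embedding of `G` in `I` -/
noncomputable def embG : GG s f →* II s f := toG (outer s f) (emb s f) (emb_rel s f)

theorem pi_rel : FreeGroup.lift (fun o => (PresentedGroup.of o : GG s f))
    ⁅outer s f, inner s⁆ = 1 := by
  rw [← mk_eq_lift, map_commutatorElement, mk_rel, commutatorElement_one_left]

/-- the projection of `I` on `G` -/
noncomputable def pi : II s f →* GG s f :=
  toG ⁅outer s f, inner s⁆ (fun o => (PresentedGroup.of o : GG s f)) (pi_rel s f)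

theorem pi_embG (x : GG s f) : pi s f (embG s f x) = x := by
  have h0 : ∀ v, pi s f (mkI s f v) = mkG s f v := by
    intro v
    rw [pi, toG_mk, mk_eq_lift]
  have : (pi s f).comp (embG s f) = MonoidHom.id _ := by
    apply PresentedGroup.ext
    intro o
    rw [MonoidHom.comp_apply, embG, toG_of]
    cases o with
    | some z =>
      show pi s f (mkI s f (FreeGroup.of (some z))) = _
      rw [h0]
      rfl
    | none =>
      show pi s f (mkI s f (FreeGroup.of none) * (mkI s f (outer s f))⁻¹) = _
      rw [map_mul, map_inv, h0, h0, mk_rel, inv_one, mul_one]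
      rfl
  exact DFunLike.congr_fun this x

theorem embG_inj : Function.Injective (embG s f) := fun a b h => by
  have := congrArg (pi s f) h
  rwa [pi_embG, pi_embG] at this

theorem potent_G (hs : s ≠ 1) : Potent (mkG s f (inner s)) := by
  obtain ⟨K, hK, hc, hp⟩ := exists_central s hs
  let a : Z → FreeGroup Z ⧸ K := fun z => ((FreeGroup.of z : FreeGroup Z) : FreeGroup Z ⧸ K)
  have ha : FreeGroup.lift a s = ((s : FreeGroup Z) : FreeGroup Z ⧸ K) := by
    have : FreeGroup.lift a = QuotientGroup.mk' K := by
      ext1 z
      rw [FreeGroup.lift_apply_of]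
      rfl
    exact DFunLike.congr_fun this s
  let b : FreeGroup Z ⧸ K := (FreeGroup.lift (fun o : Option Z => Option.elim o
    ((s : FreeGroup Z) : FreeGroup Z ⧸ K) a) f)⁻¹
  have hcen : ∀ x : FreeGroup Z ⧸ K, x * ((s : FreeGroup Z) : FreeGroup Z ⧸ K) * x⁻¹ =
      ((s : FreeGroup Z) : FreeGroup Z ⧸ K) := by
    intro x
    induction x using QuotientGroup.induction_on with
    | H g =>
    have h1 := (QuotientGroup.eq_one_iff _).2 (hc g)
    rw [QuotientGroup.mk_mul, QuotientGroup.mk_mul, QuotientGroup.mk_mul, QuotientGroup.mk_inv,
      QuotientGroup.mk_inv, mul_inv_eq_one, mul_inv_eq_iff_eq_mul] at h1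
    rw [← h1, mul_inv_cancel_right]
  have hrel : FreeGroup.lift (fun o : Option Z => Option.elim o b a) (outer s f) = 1 := by
    rw [lift_outer, ha, hcen b]
    exact mul_inv_cancel _
  refine Potent.comap (toG (outer s f) _ hrel) ?_
  rw [toG_mk, lift_inner, ha]
  exact hp

theorem rf_G_one : Group.ResiduallyFinite (GG (1 : FreeGroup Z) f) := by
  let a : Z → FreeGroup Z := FreeGroup.of
  let b : FreeGroup Z := (FreeGroup.lift (fun o : Option Z => Option.elim o (1 : FreeGroup Z) a) f)⁻¹
  have hrel : FreeGroup.lift (fun o : Option Z => Option.elim o b a)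
      (outer (1 : FreeGroup Z) f) = 1 := by
    rw [lift_outer, map_one, mul_one, mul_inv_cancel]
    exact mul_inv_cancel _
  let g : FreeGroup Z →* GG (1 : FreeGroup Z) f :=
    FreeGroup.lift fun z => mkG 1 f (FreeGroup.of (some z))
  have hid : g.comp (toG _ _ hrel) = MonoidHom.id _ := by
    apply PresentedGroup.ext
    intro o
    rw [MonoidHom.comp_apply, toG_of]
    cases o with
    | some z =>
      show g (FreeGroup.of z) = _
      rw [FreeGroup.lift_apply_of]
      rfl
    | none =>
      show g b = _
      have h1 : g b = (FreeGroup.lift (fun o : Option Z => Option.elim o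
          (1 : GG (1 : FreeGroup Z) f) fun z => mkG 1 f (FreeGroup.of (some z))) f)⁻¹ := by
        show g (FreeGroup.lift (fun o : Option Z => Option.elim o (1 : FreeGroup Z) a) f)⁻¹ = _
        rw [map_inv]
        congr 1
        have : g.comp (FreeGroup.lift (fun o : Option Z => Option.elim o (1 : FreeGroup Z) a)) =
            FreeGroup.lift (fun o : Option Z => Option.elim o
              (1 : GG (1 : FreeGroup Z) f) fun z => mkG 1 f (FreeGroup.of (some z))) := by
          ext1 o
          rw [MonoidHom.comp_apply, FreeGroup.lift_apply_of, FreeGroup.lift_apply_of]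
          cases o with
          | some z =>
            show g (FreeGroup.of z) = _
            rw [FreeGroup.lift_apply_of]
            rfl
          | none => exact map_one g
        exact DFunLike.congr_fun this f
      have h2 : mkG 1 f (outer 1 f) = 1 := mk_rel _
      rw [hom_eq (mkG 1 f), lift_outer, map_one, mul_one, mul_inv_cancel] at h2
      rw [h1]
      exact inv_eq_of_mul_eq_one_right h2
  refine rf_of_injective (toG _ _ hrel) (fun x y h => ?_) (free_rf Z)
  have h2 := congrArg g h
  have h3 : ∀ x, g (toG _ _ hrel x) = x := fun x => DFunLike.congr_fun hid x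
  rwa [h3, h3] at h2

theorem rf_I (hG : Group.ResiduallyFinite (GG s f)) : Group.ResiduallyFinite (II s f) := by
  by_cases hs : s = 1
  · subst hs
    have : (⁅outer (1 : FreeGroup Z) f, inner (1 : FreeGroup Z)⁆ : FreeGroup (Option Z)) = 1 := by
      rw [inner, map_one, commutatorElement_one_right]
    show Group.ResiduallyFinite (PresentedGroup
      ({⁅outer (1 : FreeGroup Z) f, inner (1 : FreeGroup Z)⁆} : Set (FreeGroup (Option Z))))
    rw [this]
    exact rf_trivial
  have hemb : ∀ z, embG s f (PresentedGroup.of (some z)) = mkI s f (FreeGroup.of (some z)) :=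
    fun z => toG_of _ _ _ _
  have hembn : embG s f (PresentedGroup.of none) =
      mkI s f (FreeGroup.of none) * (mkI s f (outer s f))⁻¹ := toG_of _ _ _ _
  have hembs : embG s f (mkG s f (inner s)) = mkI s f (inner s) := by
    rw [mkG_inner, mkI_inner]
    have : (embG s f).comp (FreeGroup.lift fun z => mkG s f (FreeGroup.of (some z))) =
        FreeGroup.lift fun z => mkI s f (FreeGroup.of (some z)) := by
      ext1 z
      rw [MonoidHom.comp_apply, FreeGroup.lift_apply_of, FreeGroup.lift_apply_of]
      exact hemb z
    exact DFunLike.congr_fun this s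
  refine rf_central hG (potent_G s f hs) (embG s f) (mkI s f (outer s f)) ?_ ?_ ?_
  · rw [hembs, comm_I, mul_inv_cancel_right]
  · rw [eq_top_iff, ← PresentedGroup.closure_range_of, Subgroup.closure_le]
    rintro _ ⟨o, rfl⟩
    cases o with
    | some z => exact Subgroup.subset_closure (Or.inl ⟨PresentedGroup.of (some z), hemb z⟩)
    | none =>
      have h1 : embG s f (PresentedGroup.of none) * mkI s f (outer s f) ∈
          Subgroup.closure (Set.range (embG s f) ∪ {mkI s f (outer s f)}) :=
        Subgroup.mul_mem _ (Subgroup.subset_closure (Or.inl ⟨_, rfl⟩))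
          (Subgroup.subset_closure (Or.inr rfl))
      rw [hembn, inv_mul_cancel_right] at h1
      exact h1
  · intro Ω _ ψ τ h
    let a : Z → Equiv.Perm Ω := fun z => ψ (PresentedGroup.of (some z))
    let b : Equiv.Perm Ω := ψ (PresentedGroup.of none) * τ
    have hψs : ψ (mkG s f (inner s)) = FreeGroup.lift a s := by
      rw [mkG_inner]
      have : ψ.comp (FreeGroup.lift fun z => mkG s f (FreeGroup.of (some z))) =
          FreeGroup.lift a := by
        ext1 z
        rw [MonoidHom.comp_apply, FreeGroup.lift_apply_of, FreeGroup.lift_apply_of]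
        rfl
      exact DFunLike.congr_fun this s
    have hout : FreeGroup.lift (fun o : Option Z => Option.elim o b a) (outer s f) = τ := by
      rw [lift_outer]
      have h1 : b * FreeGroup.lift a s * b⁻¹ =
          ψ (PresentedGroup.of none) * FreeGroup.lift a s * (ψ (PresentedGroup.of none))⁻¹ := by
        have h2 : τ * FreeGroup.lift a s * τ⁻¹ = FreeGroup.lift a s := by
          rw [← hψs, h, mul_inv_cancel_right]
        calc b * FreeGroup.lift a s * b⁻¹ =
            ψ (PresentedGroup.of none) * (τ * FreeGroup.lift a s * τ⁻¹) *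
              (ψ (PresentedGroup.of none))⁻¹ := by
              show ψ (PresentedGroup.of none) * τ * FreeGroup.lift a s *
                (ψ (PresentedGroup.of none) * τ)⁻¹ = _
              group
          _ = _ := by rw [h2]
      rw [h1]
      have h3 : FreeGroup.lift (fun o : Option Z => Option.elim o
          (ψ (PresentedGroup.of none)) a) (outer s f) = 1 := by
        have h4 : (ψ.comp (mkG s f)) (outer s f) = 1 := by
          rw [MonoidHom.comp_apply, mk_rel, map_one]
        rw [hom_eq (ψ.comp (mkG s f))] at h4
        exact h4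
      rw [lift_outer] at h3
      show _ * (ψ (PresentedGroup.of none) * τ) = τ
      rw [← mul_assoc, h3, one_mul]
    have hrel : FreeGroup.lift (fun o : Option Z => Option.elim o b a)
        ⁅outer s f, inner s⁆ = 1 := by
      rw [map_commutatorElement, hout, lift_inner, commutatorElement_eq_one_iff_mul_comm, ← hψs]
      exact h
    refine ⟨toG _ _ hrel, fun x => ?_, ?_⟩
    · have : (toG _ _ hrel).comp (embG s f) = ψ := by
        apply PresentedGroup.ext
        intro o
        rw [MonoidHom.comp_apply]
        cases o with
        | some z =>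
          rw [hemb, toG_mk, FreeGroup.lift_apply_of]
          rfl
        | none =>
          rw [hembn, map_mul, map_inv, toG_mk, toG_mk, FreeGroup.lift_apply_of, hout]
          show ψ (PresentedGroup.of none) * τ * τ⁻¹ = _
          rw [mul_inv_cancel_right]
      exact DFunLike.congr_fun this x
    · rw [toG_mk, hout]

end

/-- For a word `s` in `Z` and `r = f(Z, y s y⁻¹) y`, the group `⟨Z, y; [r, s]⟩` is residually finite
if and only if `⟨Z, y; r⟩` is. -/
theorem result (Z : Type) (s : FreeGroup Z) (f : FreeGroup (Option Z)) :
    Group.ResiduallyFinite (PresentedGroup ({⁅outer s f, inner s⁆} : Set (FreeGroup (Option Z)))) ↔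
      Group.ResiduallyFinite (PresentedGroup ({outer s f} : Set (FreeGroup (Option Z)))) :=
  ⟨fun h => rf_of_injective (embG s f) (embG_inj s f) h, fun h => rf_I s f h⟩

end Pool.Agent.Results.MP_3f0e40_al.CentralLetter
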