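import Pool.Agent.Lib.MP_3f0e40_al.Pres

/-!
# Commutator relators whose two entries use different Magnus letters (MP_3f0e40_al)

`Y` is a finite alphabet and `t` (written `none`) a further letter. A word in the letters
`(y, i)`, `0 ≤ i ≤ m`, is read as a word in `Y ∪ {t}` by `(y, i) ↦ t⁻ⁱ y tⁱ` (`shift`).

Suppose the equation `[r, s] = 1` can be solved for the top letters `(y, m)`, and also for the
bottom letters `(y, 0)`, over the free group on the remaining letters. If `r` and `s` use disjoint
sets of letters `(y, i)`, or if `⟨Y × {0, …, m}; [r, s]⟩` is residually finite, then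
`⟨Y ∪ {t}; [r, s]⟩` is residually finite.
-/

set_option autoImplicit false

open scoped commutatorElement

namespace Pool.Agent.Results.MP_3f0e40_al.MagnusLetters

/-- Reading a word in the letters `(y, i)` as a word in `Y ∪ {t}`: `(y, i) ↦ t⁻ⁱ y tⁱ`,
where `t` is `none`. -/
def shift {Y : Type} {m : ℕ} : FreeGroup (Y × Fin (m + 1)) →* FreeGroup (Option Y) :=
  FreeGroup.lift fun p =>
    (FreeGroup.of none ^ (p.2 : ℕ))⁻¹ * FreeGroup.of (some p.1) * FreeGroup.of none ^ (p.2 : ℕ)

/-- Substituting `v y` for the top letter `(y, m)`; the other letters stay. -/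
def top {Y : Type} {m : ℕ} (v : Y → FreeGroup (Y × Fin m)) :
    FreeGroup (Y × Fin (m + 1)) →* FreeGroup (Y × Fin m) :=
  FreeGroup.lift fun p => Fin.lastCases (motive := fun _ => FreeGroup (Y × Fin m)) (v p.1)
    (fun i => FreeGroup.of (p.1, i)) p.2

/-- Substituting `u y` for the bottom letter `(y, 0)`; the other letters stay, renamed
`(y, i + 1) ↦ (y, i)`. -/
def bot {Y : Type} {m : ℕ} (u : Y → FreeGroup (Y × Fin m)) :
    FreeGroup (Y × Fin (m + 1)) →* FreeGroup (Y × Fin m) :=
  FreeGroup.lift fun p => Fin.cases (motive := fun _ => FreeGroup (Y × Fin m)) (u p.1)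
    (fun i => FreeGroup.of (p.1, i)) p.2

open Pool.Agent.MP3f0e40 in
theorem stability (Y : Type) [Finite Y] (m : ℕ) (r s : FreeGroup (Y × Fin (m + 1)))
    (v u : Y → FreeGroup (Y × Fin m)) (hv : ⁅top v r, top v s⁆ = 1)
    (hu : ⁅bot u r, bot u s⁆ = 1)
    (hB : Group.ResiduallyFinite (PresentedGroup ({⁅r, s⁆} : Set (FreeGroup (Y × Fin (m + 1)))))) :
    Group.ResiduallyFinite (PresentedGroup ({⁅shift r, shift s⁆} : Set (FreeGroup (Option Y)))) := by
  set w : FreeGroup (Option Y) := ⁅shift r, shift s⁆ with hw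
  set b : FreeGroup (Y × Fin (m + 1)) := ⁅r, s⁆ with hb
  let t : PresentedGroup ({w} : Set (FreeGroup (Option Y))) := PresentedGroup.of none
  -- the associated subgroups
  let i0 : FreeGroup (Y × Fin m) →* PresentedGroup ({b} : Set (FreeGroup (Y × Fin (m + 1)))) :=
    FreeGroup.lift fun p => PresentedGroup.of (p.1, p.2.castSucc)
  let i1 : FreeGroup (Y × Fin m) →* PresentedGroup ({b} : Set (FreeGroup (Y × Fin (m + 1)))) :=
    FreeGroup.lift fun p => PresentedGroup.of (p.1, p.2.succ)
  -- the retractions
  let f0 : Y × Fin (m + 1) → FreeGroup (Y × Fin m) := fun p =>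
    Fin.lastCases (motive := fun _ => FreeGroup (Y × Fin m)) (v p.1)
      (fun i => FreeGroup.of (p.1, i)) p.2
  let f1 : Y × Fin (m + 1) → FreeGroup (Y × Fin m) := fun p =>
    Fin.cases (motive := fun _ => FreeGroup (Y × Fin m)) (u p.1)
      (fun i => FreeGroup.of (p.1, i)) p.2
  have hf0 : FreeGroup.lift f0 b = 1 := by
    rw [hb, map_commutatorElement]
    exact hv
  have hf1 : FreeGroup.lift f1 b = 1 := by
    rw [hb, map_commutatorElement]
    exact hu
  -- the base
  let fι : Y × Fin (m + 1) → PresentedGroup ({w} : Set (FreeGroup (Option Y))) := fun p =>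
    (t ^ (p.2 : ℕ))⁻¹ * PresentedGroup.of (some p.1) * t ^ (p.2 : ℕ)
  have hfι : ∀ x, FreeGroup.lift fι x = PresentedGroup.mk _ (shift x) := by
    intro x
    have : FreeGroup.lift fι = (PresentedGroup.mk ({w} : Set (FreeGroup (Option Y)))).comp
        shift := by
      ext1 p
      rw [MonoidHom.comp_apply, shift, FreeGroup.lift_apply_of, FreeGroup.lift_apply_of, map_mul,
        map_mul, map_inv, map_pow]
      rfl
    exact DFunLike.congr_fun this x
  have hι1 : FreeGroup.lift fι b = 1 := by
    rw [hb, map_commutatorElement, hfι, hfι]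
    have h := mk_rel w
    rwa [hw, map_commutatorElement] at h
  refine rf_retract hB (fun Q _ _ => finite_hom Q) i0 i1 (toG b f0 hf0) (toG b f1 hf1) ?_ ?_
    (toG b fι hι1) t ?_ ?_ ?_
  · intro c
    have : (toG b f0 hf0).comp i0 = MonoidHom.id _ := by
      ext1 p
      rw [MonoidHom.comp_apply]
      simp only [i0, FreeGroup.lift_apply_of, toG_of, f0, Fin.lastCases_castSucc]
      rfl
    exact DFunLike.congr_fun this c
  · intro c
    have : (toG b f1 hf1).comp i1 = MonoidHom.id _ := by
      ext1 p
      rw [MonoidHom.comp_apply]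
      simp only [i1, FreeGroup.lift_apply_of, toG_of, f1, Fin.cases_succ]
      rfl
    exact DFunLike.congr_fun this c
  · intro c
    have : (MulAut.conj t).toMonoidHom.comp ((toG b fι hι1).comp i1) =
        (toG b fι hι1).comp i0 := by
      ext1 p
      rw [MonoidHom.comp_apply, MonoidHom.comp_apply, MonoidHom.comp_apply]
      simp only [i0, i1, FreeGroup.lift_apply_of, toG_of, fι]
      show t * _ * t⁻¹ = _
      simp only [Fin.val_succ, Fin.val_castSucc]
      rw [pow_succ]
      group
    exact DFunLike.congr_fun this c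
  · rw [eq_top_iff, ← PresentedGroup.closure_range_of, Subgroup.closure_le]
    rintro _ ⟨x, rfl⟩
    cases x with
    | none => exact Subgroup.subset_closure (Or.inr rfl)
    | some y =>
      refine Subgroup.subset_closure (Or.inl ⟨PresentedGroup.of (y, 0), ?_⟩)
      rw [toG_of]
      simp [fι]
  · intro Ω _ ψ τ h
    let f : Option Y → Equiv.Perm Ω := fun o => o.elim τ fun y => ψ (PresentedGroup.of (y, 0))
    have hstep : ∀ (y : Y) (k : ℕ) (hk : k < m + 1),
        (τ ^ k)⁻¹ * ψ (PresentedGroup.of (y, 0)) * τ ^ k = ψ (PresentedGroup.of (y, ⟨k, hk⟩)) := by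
      intro y k
      induction k with
      | zero =>
        intro hk
        simp
      | succ k ih =>
        intro hk
        have h1 := h (FreeGroup.of (y, ⟨k, by omega⟩))
        simp only [i0, i1, FreeGroup.lift_apply_of] at h1
        have h2 : ψ (PresentedGroup.of (y, (⟨k, by omega⟩ : Fin m).succ)) =
            τ⁻¹ * ψ (PresentedGroup.of (y, (⟨k, by omega⟩ : Fin m).castSucc)) * τ := by
          rw [mul_assoc, ← h1, inv_mul_cancel_left]
        have h3 : ψ (PresentedGroup.of (y, (⟨k + 1, hk⟩ : Fin (m + 1)))) =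
            τ⁻¹ * ψ (PresentedGroup.of (y, (⟨k, by omega⟩ : Fin (m + 1)))) * τ := h2
        rw [h3, ← ih (by omega), pow_succ]
        group
    have hf : ∀ x, FreeGroup.lift f (shift x) = ψ (PresentedGroup.mk _ x) := by
      intro x
      have : (FreeGroup.lift f).comp shift = ψ.comp (PresentedGroup.mk _) := by
        ext1 p
        rw [MonoidHom.comp_apply, MonoidHom.comp_apply, shift, FreeGroup.lift_apply_of, map_mul,
          map_mul, map_inv, map_pow, FreeGroup.lift_apply_of, FreeGroup.lift_apply_of]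
        exact hstep p.1 p.2 p.2.2
      exact DFunLike.congr_fun this x
    have hw1 : FreeGroup.lift f w = 1 := by
      rw [hw, map_commutatorElement, hf, hf, ← map_commutatorElement, ← map_commutatorElement]
      rw [← hb, mk_rel b, map_one]
    refine ⟨toG w f hw1, fun x => ?_, toG_of w f hw1 none⟩
    have : (toG w f hw1).comp (toG b fι hι1) = ψ := by
      apply PresentedGroup.ext
      intro p
      rw [MonoidHom.comp_apply, toG_of]
      simp only [fι, t]
      rw [map_mul, map_mul, map_inv, map_pow, toG_of, toG_of]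
      exact hstep p.1 p.2 p.2.2
    exact DFunLike.congr_fun this x

/-- Let `r`, `s` be words in the letters `(y, i)`, `y ∈ Y`, `0 ≤ i ≤ m`, such that `[r, s] = 1` can
be solved for the top letters and for the bottom letters over the free group on the other letters.
If `r` and `s` use disjoint sets of letters `(y, i)`, or if the group
`⟨Y × {0, …, m}; [r, s]⟩` is residually finite, then `⟨Y ∪ {t}; [r, s]⟩`, with `(y, i)` read as
`t⁻ⁱ y tⁱ`, is residually finite. -/
theorem result (Y : Type) [Finite Y] (m : ℕ) (r s : FreeGroup (Y × Fin (m + 1)))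
    (hv : ∃ v : Y → FreeGroup (Y × Fin m), ⁅top v r, top v s⁆ = 1)
    (hu : ∃ u : Y → FreeGroup (Y × Fin m), ⁅bot u r, bot u s⁆ = 1)
    (h : (∃ S : Set (Y × Fin (m + 1)), r ∈ Subgroup.closure (FreeGroup.of '' S) ∧
        s ∈ Subgroup.closure (FreeGroup.of '' Sᶜ)) ∨
      Group.ResiduallyFinite
        (PresentedGroup ({⁅r, s⁆} : Set (FreeGroup (Y × Fin (m + 1)))))) :
    Group.ResiduallyFinite
      (PresentedGroup ({⁅shift r, shift s⁆} : Set (FreeGroup (Option Y)))) := by
  obtain ⟨v, hv⟩ := hv
  obtain ⟨u, hu⟩ := hu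
  rcases h with ⟨S, hr, hs⟩ | h
  · exact stability Y m r s v u hv hu (Pool.Agent.MP3f0e40.rf_disjoint S r s hr hs)
  · exact stability Y m r s v u hv hu h

end Pool.Agent.Results.MP_3f0e40_al.MagnusLetters
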