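import Pool.Agent.Lib.MP_3f0e40_al.PL.Main2

set_option autoImplicit false

namespace Pool.Agent.Results.MP_3f0e40_al.PrivateLetters

open scoped commutatorElement

variable {X : Type}

/-- The words in the letters of `S`. -/
def words (S : Set X) : Subgroup (FreeGroup X) := Subgroup.closure (FreeGroup.of '' S)

open Classical in
/-- The letters of `S` are deleted. -/
noncomputable def erase (S : Set X) : FreeGroup X →* FreeGroup X :=
  FreeGroup.lift fun x => if x ∈ S then 1 else FreeGroup.of x

/-- The word obtained from a word in two letters by the substitution `0 ↦ r`, `1 ↦ s`. -/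
def subst (r s : FreeGroup X) : FreeGroup (Fin 2) →* FreeGroup X :=
  FreeGroup.lift ![r, s]

/-- The cyclic subgroups `⟨v⟩` of the group of words in the letters of `S` are closed in the
profinite topology of `⟨X; r⟩`: a word `b` in these letters which is not a power of `v` is not a
power of `v` in some finite quotient of `⟨X; r⟩`. -/
def CyclicClosed (S : Set X) (r : FreeGroup X) : Prop :=
  ∀ v ∈ words S, ∀ b ∈ words S, (∀ i : ℤ, b ≠ v ^ i) → ∃ N : Subgroup (FreeGroup X),
    N.Normal ∧ N.FiniteIndex ∧ r ∈ N ∧ ∀ i : ℤ, b * v ^ (-i) ∉ N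

/-- Let `r` be a word in letters of `A` and `s` a word in letters of `B` such that `r` is not a
word in letters of `B` and `s` is not a word in letters of `A`. Suppose that deleting the letters
of `B` from `r`, or the letters of `A` from `s`, leaves a word different from `1`, or that the
cyclic subgroups of the group of words in the letters of `A ∩ B` are closed in `⟨X; r⟩` or in
`⟨X; s⟩`. Then `⟨X; [r, s]⟩` is residually finite, and for every word `W` in the commutator
subgroup of the free group on two letters the group `⟨X; W(r, s)⟩` is residually finite if and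
only if `⟨x, y; W⟩` is residually finite. -/
theorem result (A B : Set X) (r s : FreeGroup X) (hr : r ∈ words A) (hs : s ∈ words B)
    (hrB : r ∉ words B) (hsA : s ∉ words A)
    (h : erase B r ≠ 1 ∨ erase A s ≠ 1 ∨ CyclicClosed (A ∩ B) r ∨ CyclicClosed (A ∩ B) s) :
    Group.ResiduallyFinite (PresentedGroup ({⁅r, s⁆} : Set (FreeGroup X))) ∧
      ∀ W ∈ commutator (FreeGroup (Fin 2)),
        (Group.ResiduallyFinite (PresentedGroup ({subst r s W} : Set (FreeGroup X))) ↔
          Group.ResiduallyFinite (PresentedGroup ({W} : Set (FreeGroup (Fin 2))))) := by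
  have h1 : (Pool.Agent.MP3f0e40.PL.delS B r ≠ 1 ∨ Pool.Agent.MP3f0e40.PL.CycSep (A ∩ B) r) ∨
      (Pool.Agent.MP3f0e40.PL.delS A s ≠ 1 ∨ Pool.Agent.MP3f0e40.PL.CycSep (A ∩ B) s) := by
    rcases h with h | h | h | h
    · exact Or.inl (Or.inl h)
    · exact Or.inr (Or.inl h)
    · exact Or.inl (Or.inr h)
    · exact Or.inr (Or.inr h)
  have main : ∀ W ∈ commutator (FreeGroup (Fin 2)),
      (Group.ResiduallyFinite (PresentedGroup ({subst r s W} : Set (FreeGroup X))) ↔
        Group.ResiduallyFinite (PresentedGroup ({W} : Set (FreeGroup (Fin 2))))) := fun W hW =>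
    Pool.Agent.MP3f0e40.PL.main_private A B r s hr hs hrB hsA h1 W hW
  refine ⟨?_, main⟩
  have h2 := (main ⁅FreeGroup.of 0, FreeGroup.of 1⁆ (Subgroup.commutator_mem_commutator
    (Subgroup.mem_top _) (Subgroup.mem_top _))).2 Pool.Agent.MP3f0e40.PL.rf_Z2
  rwa [map_commutatorElement, subst, FreeGroup.lift_apply_of, FreeGroup.lift_apply_of] at h2

end Pool.Agent.Results.MP_3f0e40_al.PrivateLetters
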