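import Pool.Agent.Lib.MP_3f0e40_al.OU.Main
import Pool.Agent.Lib.MP_3f0e40_al.OU.CloseA
import Pool.Agent.Lib.MP_3f0e40_al.OU.CloseB
import Pool.Agent.Lib.MP_3f0e40_al.OU.EmbedA
import Pool.Agent.Lib.MP_3f0e40_al.OU.EmbedB
import Pool.Agent.Lib.MP_3f0e40_al.PL.MainT

set_option autoImplicit false

namespace Pool.Agent.Results.MP_3f0e40_al.Substitution

open scoped commutatorElement

/-- The letters `(y, i)` other than `(a, 0)`. -/
abbrev Letters {Y : Type} (a : Y) : Type := {p : Y × ℕ // p ≠ (a, 0)}

/-- A word in the letters `(y, i)` read in the letters `Y` and `t` (written `none`):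
`(y, i)` stands for `t⁻ⁱ y tⁱ`. -/
def shift {Y : Type} {a : Y} : FreeGroup (Letters a) →* FreeGroup (Option Y) :=
  FreeGroup.lift fun p => (FreeGroup.of none ^ p.1.2)⁻¹ * FreeGroup.of (some p.1.1) *
    FreeGroup.of none ^ p.1.2

/-- The word obtained from a word in two letters by the substitution `0 ↦ r`, `1 ↦ s`. -/
def subst {X : Type} (r s : FreeGroup X) : FreeGroup (Fin 2) →* FreeGroup X :=
  FreeGroup.lift ![r, s]

open Pool.Agent.MP3f0e40 Pool.Agent.MP3f0e40.OU
open Pool.Agent.MP3f0e40.OS (Low lev join shf low Det)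

theorem rf_conj {X : Type} (w c : FreeGroup X)
    (h : Group.ResiduallyFinite (PresentedGroup ({c * w * c⁻¹} : Set (FreeGroup X)))) :
    Group.ResiduallyFinite (PresentedGroup ({w} : Set (FreeGroup X))) := by
  have h1 : FreeGroup.lift (fun x => (PresentedGroup.of x :
      PresentedGroup ({c * w * c⁻¹} : Set (FreeGroup X)))) w = 1 := by
    rw [← MP3f0e40.mk_eq_lift]
    have := mk_rel (c * w * c⁻¹)
    rw [map_mul, map_mul, map_inv] at this
    exact (conj_eq_one_iff).1 this
  have h2 : FreeGroup.lift (fun x => (PresentedGroup.of x :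
      PresentedGroup ({w} : Set (FreeGroup X)))) (c * w * c⁻¹) = 1 := by
    rw [← MP3f0e40.mk_eq_lift, map_mul, map_mul, map_inv, mk_rel, mul_one, mul_inv_cancel]
  refine rf_of_injective (toG w _ h1) ?_ h
  have h3 : (toG _ _ h2).comp (toG w _ h1) = MonoidHom.id _ := by
    apply PresentedGroup.ext
    intro x
    rw [MonoidHom.comp_apply, toG_of, toG_of]
    rfl
  intro x y hxy
  have h4 := congrArg (toG _ _ h2) hxy
  have h5 : ∀ x, (toG _ _ h2) (toG w _ h1 x) = x := fun x => DFunLike.congr_fun h3 x
  rwa [h5, h5] at h4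

theorem rf_conj_iff {X : Type} (w c : FreeGroup X) :
    Group.ResiduallyFinite (PresentedGroup ({w} : Set (FreeGroup X))) ↔
    Group.ResiduallyFinite (PresentedGroup ({c * w * c⁻¹} : Set (FreeGroup X))) := by
  refine ⟨fun h => rf_conj _ c⁻¹ ?_, rf_conj w c⟩
  have h1 : c⁻¹ * (c * w * c⁻¹) * c⁻¹⁻¹ = w := by group
  rw [h1]
  exact h

theorem shf_lev {Y : Type} {a : Y} (x : FreeGroup (Low a)) : shf (lev 0 x) = shift x := by
  have : (shf : FreeGroup (Y × ℕ) →* FreeGroup (Option Y)).comp (lev (a := a) 0) = shift := by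
    ext1 p
    rw [MonoidHom.comp_apply, lev, FreeGroup.map.of, shf, shift, FreeGroup.lift_apply_of,
      FreeGroup.lift_apply_of]
    rfl
  exact DFunLike.congr_fun this x

/-- the base group has the subgroup `Kgp u` -/
theorem rf_presented {Y : Type} [Finite Y] (a : Y) (v s : FreeGroup (Low a))
    (u : FreeGroup (Fin 2)) (hu : Comm u) (hs : s ≠ 1) :
    Group.ResiduallyFinite (PresentedGroup ({relI a v s u} : Set (FreeGroup (Option Y)))) ↔
    Group.ResiduallyFinite (PresentedGroup ({u} : Set (FreeGroup (Fin 2)))) := by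
  constructor
  · intro h
    obtain ⟨κ, h0, h1⟩ := exists_kap a v s u
    have hinj := kap_injective a v s u hu hs κ h0 h1
    have hrel : FreeGroup.lift ![(PresentedGroup.mk _ (shf (FreeGroup.of (a, 0) * lev 0 v)) :
        PresentedGroup ({relI a v s u} : Set (FreeGroup (Option Y)))),
        PresentedGroup.mk _ (shf (lev 0 s))] u = 1 := by
      change ev2 _ _ u = 1
      rw [← ev2_map, ← ev2_map]
      exact mk_rel (relI a v s u)
    refine rf_of_injective (toG u _ hrel) ?_ h
    rw [injective_iff_map_eq_one]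
    intro k hk
    obtain ⟨w, rfl⟩ := PresentedGroup.mk_surjective _ k
    rw [toG_mk] at hk
    change ev2 _ _ w = 1 at hk
    rw [← ev2_map, ← ev2_map] at hk
    have h2 := gam_embeds a v s u hu _ hk
    rw [ev2_map] at h2
    apply hinj
    rw [map_one]
    have h3 : ∀ w, κ (PresentedGroup.mk _ w) = ev2 (rr a v s u) (ss a v s u) w := by
      intro w
      have : κ.comp (PresentedGroup.mk _) = ev2 (rr a v s u) (ss a v s u) := by
        ext1 i
        rw [MonoidHom.comp_apply, ev2, FreeGroup.lift_apply_of]
        fin_cases i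
        · exact h0
        · exact h1
      exact DFunLike.congr_fun this w
    rw [h3]
    exact h2
  · intro h
    exact close a v s u hu (window a v s u hu (gam_rf a v s u hu h hs))

/-- The equivalence for fixed words `p`, `q`. -/
theorem iff_of {Y : Type} [Finite Y] (a : Y) (g h s : FreeGroup (Letters a)) (hs : s ≠ 1)
    (p q : FreeGroup (Fin 2)) :
    Group.ResiduallyFinite (PresentedGroup
      ({⁅subst (shift g * FreeGroup.of (some a) * shift h) (shift s) p,
        subst (shift g * FreeGroup.of (some a) * shift h) (shift s) q⁆} :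
        Set (FreeGroup (Option Y)))) ↔
    Group.ResiduallyFinite (PresentedGroup ({⁅p, q⁆} : Set (FreeGroup (Fin 2)))) := by
  rw [rf_conj_iff _ (shift g)⁻¹, ← rf_presented a (h * g) (g⁻¹ * s * g) ⁅p, q⁆
    (comm_commutator p q) ?_]
  · have h2 : relI a (h * g) (g⁻¹ * s * g) ⁅p, q⁆ = (shift g)⁻¹ *
        ⁅subst (shift g * FreeGroup.of (some a) * shift h) (shift s) p,
          subst (shift g * FreeGroup.of (some a) * shift h) (shift s) q⁆ * ((shift g)⁻¹)⁻¹ := by
      rw [relI, rel, ← map_commutatorElement]
      change _ = MulAut.conj (shift g)⁻¹ (ev2 _ _ _)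
      rw [ev2_map, ← MulEquiv.coe_toMonoidHom, ev2_map]
      have h3 : (shf (FreeGroup.of (a, 0)) : FreeGroup (Option Y)) = FreeGroup.of (some a) := by
        rw [shf, FreeGroup.lift_apply_of]
        simp
      congr 2
      · rw [map_mul, shf_lev, h3]
        simp only [MulEquiv.coe_toMonoidHom, MulAut.conj_apply, map_mul]
        group
      · rw [shf_lev, MulEquiv.coe_toMonoidHom, MulAut.conj_apply, map_mul, map_mul, map_inv]
        group
    rw [h2]
  · intro h1
    apply hs
    have : s = g * (g⁻¹ * s * g) * g⁻¹ := by group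
    rw [this, h1]
    group

/-- Let `Y` be finite, `a` a letter of `Y`, `t` a further letter, and `g`, `h`, `s` words in the
letters `y_i = t⁻ⁱ y tⁱ` (`y` in `Y`, `i ≥ 0`) different from `a_0 = a`, with `s ≠ 1`. Put
`r = g a h`. Then for all words `p`, `q` in two letters the one-relator group with generators
`Y`, `t` and relator `[p(r, s), q(r, s)]` is residually finite if and only if the one-relator
group with two generators and relator `[p, q]` is. In particular the one-relator group with
generators `Y`, `t` and relator `[r, s]` is residually finite. -/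
theorem result {Y : Type} [Finite Y] (a : Y) (g h s : FreeGroup (Letters a)) (hs : s ≠ 1) :
    (∀ p q : FreeGroup (Fin 2), Group.ResiduallyFinite (PresentedGroup
      ({⁅subst (shift g * FreeGroup.of (some a) * shift h) (shift s) p,
        subst (shift g * FreeGroup.of (some a) * shift h) (shift s) q⁆} :
        Set (FreeGroup (Option Y)))) ↔
      Group.ResiduallyFinite (PresentedGroup ({⁅p, q⁆} : Set (FreeGroup (Fin 2))))) ∧
    Group.ResiduallyFinite (PresentedGroup
      ({⁅shift g * FreeGroup.of (some a) * shift h, shift s⁆} : Set (FreeGroup (Option Y)))) := by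
  refine ⟨fun p q => iff_of a g h s hs p q, ?_⟩
  have h1 := (iff_of a g h s hs (FreeGroup.of 0) (FreeGroup.of 1)).2
    Pool.Agent.MP3f0e40.PL.rf_Z2
  have e0 : subst (shift g * FreeGroup.of (some a) * shift h) (shift s) (FreeGroup.of 0) =
      shift g * FreeGroup.of (some a) * shift h := FreeGroup.lift_apply_of
  have e1 : subst (shift g * FreeGroup.of (some a) * shift h) (shift s) (FreeGroup.of 1) =
      shift s := FreeGroup.lift_apply_of
  rw [e0, e1] at h1
  exact h1

end Pool.Agent.Results.MP_3f0e40_al.Substitution
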